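import Pool.Agent.H890.XY.Stmts2

set_option autoImplicit false

/-! Closure properties of `FL` kernels: products and power series. -/

namespace Pool.Agent.H890.XY

open MeasureTheory Set Filter Topology Real

theorem flmul : TaskFLmul := by
  intro X _ K L hK hL
  obtain ⟨Kn, hK1, ⟨C, hK2⟩, hK3⟩ := hK
  obtain ⟨Ln, hL1, ⟨D, hL2⟩, hL3⟩ := hL
  refine ⟨fun n a b => Kn n a b * Ln n a b, fun n => (hK1 n).mul (hL1 n), ⟨|C| * |D|, fun n a b => ?_⟩,
    fun a b => (hK3 a b).mul (hL3 a b)⟩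
  rw [abs_mul]
  exact mul_le_mul ((hK2 n a b).trans (le_abs_self C)) ((hL2 n a b).trans (le_abs_self D))
    (abs_nonneg _) (abs_nonneg _)

theorem flser_pow {X : Type} [TopologicalSpace X] {φ : X → ℝ} (hφ : Continuous φ) (i : ℕ) :
    FK (fun a b => (φ a * φ b) ^ i) :=
  FK.congr (FK.single (φ := fun x => φ x ^ i) (hφ.pow i)) fun a b => by rw [mul_pow]

theorem flser_sum {X : Type} [TopologicalSpace X] {φ : X → ℝ} (hφ : Continuous φ) {c : ℕ → ℝ}
    (hc : ∀ i, 0 ≤ c i) (n : ℕ) :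
    FK (fun a b => ∑ i ∈ Finset.range n, c i * (φ a * φ b) ^ i) := by
  induction n with
  | zero => exact FK.congr FK.zero fun a b => by simp
  | succ n ih =>
    refine FK.congr (ih.add ((flser_pow hφ n).smul (hc n))) fun a b => ?_
    rw [Finset.sum_range_succ]

theorem flser : TaskFLser := by
  intro X _ φ hφ h1 c hc hs K hK
  refine ⟨fun n a b => ∑ i ∈ Finset.range n, c i * (φ a * φ b) ^ i, fun n => flser_sum hφ hc n,
    ⟨∑' i, c i, fun n a b => ?_⟩, fun a b => (hK a b).tendsto_sum_nat⟩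
  have h2 : |φ a * φ b| ≤ 1 := by
    rw [abs_mul]
    exact mul_le_one₀ (h1 a) (abs_nonneg _) (h1 b)
  refine (Finset.abs_sum_le_sum_abs _ _).trans ?_
  refine le_trans (Finset.sum_le_sum fun i _ => ?_) (hs.sum_le_tsum (Finset.range n) fun i _ => hc i)
  rw [abs_mul, abs_of_nonneg (hc i), abs_pow]
  exact mul_le_of_le_one_right (hc i) (pow_le_one₀ (abs_nonneg _) h2)

end Pool.Agent.H890.XY
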